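import Pool.Agent.Lib.MP_abd978_an.Interfaces

/-!
# Project ABD: existence of potentials (module POTX)
-/

set_option autoImplicit false

open MeasureTheory Metric Set Filter Topology ContDiff
open scoped Gradient RealInnerProductSpace

namespace Pool.Agent.Lib.MP_abd978_an.H49

open Pool.Agent.Lib.MP_abd978_an

/-! ### The truncation function -/

theorem hasDerivAt_eni (x : ℝ) : HasDerivAt expNegInvGlue ((x⁻¹) ^ 2 * expNegInvGlue x) x := by
  have h := expNegInvGlue.hasDerivAt_polynomial_eval_inv_mul 1 x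
  simpa using h

theorem deriv_eni_nonneg (x : ℝ) : 0 ≤ (x⁻¹) ^ 2 * expNegInvGlue x :=
  mul_nonneg (sq_nonneg _) (expNegInvGlue.nonneg x)

theorem deriv_eni_pos {x : ℝ} (hx : 0 < x) : 0 < (x⁻¹) ^ 2 * expNegInvGlue x :=
  mul_pos (by positivity) (expNegInvGlue.pos_of_pos hx)

theorem deriv_eni_le (x : ℝ) : (x⁻¹) ^ 2 * expNegInvGlue x ≤ 2 := by
  rcases le_or_gt x 0 with hx | hx
  · rw [expNegInvGlue.zero_of_nonpos hx]
    norm_num
  · have h1 : expNegInvGlue x = Real.exp (-x⁻¹) := by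
      simp [expNegInvGlue, hx.not_ge]
    have h2 : 0 < x⁻¹ := by positivity
    have h3 := Real.quadratic_le_exp_of_nonneg h2.le
    have h4 : Real.exp x⁻¹ * Real.exp (-x⁻¹) = 1 := by
      rw [← Real.exp_add]
      simp
    have h5 : 0 < Real.exp (-x⁻¹) := Real.exp_pos _
    rw [h1]
    nlinarith

/-- smooth, zero exactly on `[0, 1]`, with bounded derivative, which is positive outside `[0, 1]` -/
noncomputable def HH (t : ℝ) : ℝ := expNegInvGlue (t - 1) - expNegInvGlue (-t)

noncomputable def HH' (t : ℝ) : ℝ :=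
  ((t - 1)⁻¹) ^ 2 * expNegInvGlue (t - 1) + ((-t)⁻¹) ^ 2 * expNegInvGlue (-t)

theorem hasDerivAt_HH (t : ℝ) : HasDerivAt HH (HH' t) t := by
  have h1 : HasDerivAt (fun t : ℝ => expNegInvGlue (t - 1))
      (((t - 1)⁻¹) ^ 2 * expNegInvGlue (t - 1) * 1) t :=
    HasDerivAt.comp (h₂ := expNegInvGlue) (h := fun t : ℝ => t - 1) t (hasDerivAt_eni (t - 1))
      ((hasDerivAt_id t).sub_const 1)
  have h2 : HasDerivAt (fun t : ℝ => expNegInvGlue (-t))
      (((-t)⁻¹) ^ 2 * expNegInvGlue (-t) * (-1)) t :=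
    HasDerivAt.comp (h₂ := expNegInvGlue) (h := fun t : ℝ => -t) t (hasDerivAt_eni (-t))
      (hasDerivAt_id t).neg
  have h3 : HasDerivAt HH (((t - 1)⁻¹) ^ 2 * expNegInvGlue (t - 1) * 1 -
      ((-t)⁻¹) ^ 2 * expNegInvGlue (-t) * (-1)) t := h1.sub h2
  have h4 : ((t - 1)⁻¹) ^ 2 * expNegInvGlue (t - 1) * 1 -
      ((-t)⁻¹) ^ 2 * expNegInvGlue (-t) * (-1) = HH' t := by
    unfold HH'
    ring
  rwa [h4] at h3

theorem deriv_HH (t : ℝ) : deriv HH t = HH' t := (hasDerivAt_HH t).deriv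

theorem HH'_nonneg (t : ℝ) : 0 ≤ HH' t := add_nonneg (deriv_eni_nonneg _) (deriv_eni_nonneg _)

theorem abs_deriv_HH_le (t : ℝ) : |deriv HH t| ≤ 4 := by
  rw [deriv_HH, abs_of_nonneg (HH'_nonneg t)]
  have h1 := deriv_eni_le (t - 1)
  have h2 := deriv_eni_le (-t)
  unfold HH'
  linarith

theorem contDiff_HH : ContDiff ℝ ∞ HH := by
  unfold HH
  exact (expNegInvGlue.contDiff.comp (contDiff_id.sub contDiff_const)).sub
    (expNegInvGlue.contDiff.comp contDiff_neg)

theorem HH_eq_zero {t : ℝ} (h : t ∈ Icc (0 : ℝ) 1) : HH t = 0 := by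
  unfold HH
  rw [expNegInvGlue.zero_of_nonpos (by linarith [h.2]), expNegInvGlue.zero_of_nonpos
    (by linarith [h.1]), sub_zero]

theorem mem_of_HH_eq_zero {t : ℝ} (h : HH t = 0) : t ∈ Icc (0 : ℝ) 1 := by
  unfold HH at h
  constructor
  · by_contra hcon
    push Not at hcon
    have h1 := expNegInvGlue.pos_of_pos (x := -t) (by linarith)
    have h2 : expNegInvGlue (t - 1) = 0 := expNegInvGlue.zero_of_nonpos (by linarith)
    linarith
  · by_contra hcon
    push Not at hcon
    have h1 := expNegInvGlue.pos_of_pos (x := t - 1) (by linarith)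
    have h2 : expNegInvGlue (-t) = 0 := expNegInvGlue.zero_of_nonpos (by linarith)
    linarith

/-! ### Congruence -/

variable {n : ℕ}

theorem H0.congr {μ : Measure (E n)} {p : ℝ} {D : Set (E n)} {u u' : E n → ℝ}
    {v v' : E n → E n} (h : H0 μ p D u v) (hu : u =ᵐ[μ] u') (hv : v =ᵐ[μ] v') :
    H0 μ p D u' v' := by
  obtain ⟨h1, h2, ψ, h3, h4, h5⟩ := h
  refine ⟨h1.ae_eq hu, h2.ae_eq hv, ψ, h3, ?_, ?_⟩
  · refine h4.congr fun i => eLpNorm_congr_ae ?_
    filter_upwards [hu] with x hx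
    rw [hx]
  · refine h5.congr fun i => eLpNorm_congr_ae ?_
    filter_upwards [hv] with x hx
    rw [hx]

/-- the solution of the Dirichlet problem with data between `0` and `1` is between `0` and `1` -/
theorem range (hB : BchainStatement) (hP : PairStatement) (hS : Sob1Statement)
    (hI : IntgStatement) {p : ℝ} {μ : Measure (E n)} {a : E n → E n → E n} {α β : ℝ}
    {D : Set (E n)} {z : E n} {R : ℝ} {g u : E n → ℝ} {V : E n → E n} (hop : Op p μ a α β)
    (hD : IsOpen D) (hDz : D ⊆ ball z R) (hR : 0 < R) (hg : Test univ g)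
    (hg01 : ∀ x, g x ∈ Icc (0 : ℝ) 1)
    (h0 : H0 μ p D (fun x => u x - g x) (fun x => V x - ∇ g x)) (he : Eqn μ a D V) :
    ∀ᵐ x ∂μ, u x ∈ Icc (0 : ℝ) 1 := by
  have := hop.lf
  have hp := hop.hp
  have hV : MemLp V (ENNReal.ofReal p) μ := by
    have h6 := h0.2.1.add (hg.memLp_grad (μ := μ) (ENNReal.ofReal p))
    have h7 : ((fun x => V x - ∇ g x) + fun x => ∇ g x) = V := by
      funext x
      simp
    rwa [h7] at h6
  have hgrad1 : ∀ x : E n, ∇ (fun _ : E n => (1 : ℝ)) x = 0 := by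
    intro x
    rw [grad_eq]
    simp
  have hz : (fun x => (1 : ℝ) * HH (g x)) = fun _ => (0 : ℝ) := by
    funext x
    rw [HH_eq_zero (hg01 x), mul_zero]
  have h1 := hB n μ p D u V g (fun _ => 1) HH 4 hp hop.lf hD hg h0 contDiff_HH abs_deriv_HH_le
    contDiff_const (fun x => by norm_num) (fun x => by rw [hgrad1]; norm_num)
    (by rw [hz]; exact HasCompactSupport.zero) (by rw [hz]; simp [tsupport])
  have h2 : H0 μ p D (fun x => HH (u x)) fun x => HH' (u x) • V x := by
    refine H0.congr h1 (Eventually.of_forall fun x => ?_) (Eventually.of_forall fun x => ?_)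
    · simp
    · simp only [hgrad1, smul_zero, zero_add, one_mul, deriv_HH]
  have h3 := hP n p μ a α β D V _ _ hop hD (hV.restrict _) he h2
  have h4 := (hI n p μ μ a α β V _ hop hV h2.2.1).1
  have h5 : ∀ x, ⟪a x (V x), HH' (u x) • V x⟫ = HH' (u x) * ⟪a x (V x), V x⟫ := fun x => by
    rw [inner_smul_right]
  have hnn : ∀ x, 0 ≤ ⟪a x (V x), V x⟫ := fun x =>
    le_trans (mul_nonneg hop.hα.le (Real.rpow_nonneg (norm_nonneg _) _)) (hop.ell x (V x))
  have h6 : (fun x => ⟪a x (V x), HH' (u x) • V x⟫) =ᵐ[μ] 0 := by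
    refine (integral_eq_zero_iff_of_nonneg (fun x => ?_) h4).1 h3
    show 0 ≤ ⟪a x (V x), HH' (u x) • V x⟫
    rw [h5]
    exact mul_nonneg (HH'_nonneg _) (hnn x)
  have h7 : ∀ᵐ x ∂μ, HH' (u x) • V x = 0 := by
    filter_upwards [h6] with x hx
    have h8 : HH' (u x) * ⟪a x (V x), V x⟫ = 0 := by rw [← h5]; exact hx
    rcases mul_eq_zero.1 h8 with h9 | h9
    · rw [h9, zero_smul]
    · have h10 := hop.ell x (V x)
      rw [h9] at h10
      have h11 : ‖V x‖ ^ p = 0 := by
        have h12 : 0 ≤ ‖V x‖ ^ p := Real.rpow_nonneg (norm_nonneg _) _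
        have h13 := hop.hα
        nlinarith
      have h14 : ‖V x‖ = 0 := (Real.rpow_eq_zero (norm_nonneg _) (by linarith)).1 h11
      rw [norm_eq_zero.1 h14, smul_zero]
  obtain ⟨C, hC, h8⟩ := hS n p μ hop.toGeo
  have h9 := h8 z R _ _ hR (h2.mono hDz)
  have h10 : ∫ x, ‖HH' (u x) • V x‖ ^ p ∂μ = 0 := by
    rw [integral_congr_ae (g := fun _ => (0 : ℝ)) (by
      filter_upwards [h7] with x hx
      rw [hx, norm_zero, Real.zero_rpow (by linarith)])]
    simp
  rw [h10, mul_zero] at h9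
  have h11 : Integrable (fun x => |HH (u x)| ^ p) μ := by
    have h12 := h2.1.integrable_norm_rpow (by
      intro h0
      have := one_le_ofReal hp
      rw [h0] at this
      simp at this) ENNReal.ofReal_ne_top
    rw [ENNReal.toReal_ofReal (by linarith)] at h12
    exact h12
  have h12 : (fun x => |HH (u x)| ^ p) =ᵐ[μ] 0 := by
    refine (integral_eq_zero_iff_of_nonneg (fun x => Real.rpow_nonneg (abs_nonneg _) _) h11).1 ?_
    exact le_antisymm h9 (integral_nonneg fun x => Real.rpow_nonneg (abs_nonneg _) _)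
  filter_upwards [h12] with x hx
  have h13 : |HH (u x)| = 0 := (Real.rpow_eq_zero (abs_nonneg _) (by linarith)).1 hx
  exact mem_of_HH_eq_zero (abs_eq_zero.1 h13)

/-- POTX: existence of potentials -/
theorem potx (hdir : DirStatement) (hB : BchainStatement) (hP : PairStatement)
    (hS : Sob1Statement) (hI : IntgStatement) (hrep : RepStatement) : PotxStatement := by
  intro n p μ a α β y R y' κ hop hκ hsub
  have := hop.lf
  have hp := hop.hp
  have hR : 0 < R := by
    have h1 : y' ∈ ball y R := hsub (mem_closedBall_self hκ.le)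
    exact lt_of_le_of_lt dist_nonneg h1
  -- the cutoff function
  obtain ⟨δ, hδ, h1⟩ := (isCompact_closedBall y' κ).exists_cthickening_subset_open isOpen_ball hsub
  rw [cthickening_closedBall hδ.le hκ.le] at h1
  let f : ContDiffBump y' := ⟨κ + δ / 2, κ + δ, by positivity, by linarith⟩
  let g : E n → ℝ := f
  have hgT : Test (ball y R) g := by
    refine ⟨f.contDiff, f.hasCompactSupport, ?_⟩
    have h2 : tsupport (f : E n → ℝ) = closedBall y' (κ + δ) := f.tsupport_eq
    show tsupport (f : E n → ℝ) ⊆ ball y R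
    rw [h2, add_comm]
    exact h1
  have hg01 : ∀ x, g x ∈ Icc (0 : ℝ) 1 := fun x => ⟨f.nonneg, f.le_one⟩
  have hg1 : ∀ x ∈ closedBall y' (κ + δ / 2), g x = 1 := fun x hx =>
    f.one_of_mem_closedBall hx
  have hgU : Test univ g := hgT.mono (subset_univ _)
  -- the solution
  set D : Set (E n) := ball y R \ closedBall y' κ with hD
  have hDo : IsOpen D := isOpen_ball.sdiff isClosed_closedBall
  obtain ⟨u, V, hu0, hue⟩ := hdir n p μ a α β D y R g hop hDo sdiff_subset hgU
  have hrange := range hB hP hS hI hop hDo sdiff_subset hR hgU hg01 hu0 hue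
  -- truncation
  let u₁ : E n → ℝ := fun x => max 0 (min 1 (u x))
  have hu1 : ∀ x, u₁ x ∈ Icc (0 : ℝ) 1 := fun x =>
    ⟨le_max_left _ _, max_le zero_le_one (min_le_left _ _)⟩
  have hu1u : u =ᵐ[μ] u₁ := by
    filter_upwards [hrange] with x hx
    show u x = max 0 (min 1 (u x))
    rw [min_eq_right hx.2, max_eq_right hx.1]
  have hu10 : H0 μ p D (fun x => u₁ x - g x) (fun x => V x - ∇ g x) := by
    refine H0.congr hu0 ?_ (ae_eq_refl _)
    filter_upwards [hu1u] with x hx
    rw [hx]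
  have hsol : BSol μ p a D u₁ V 0 1 :=
    { isOpen := hDo
      sob := H0.isSob hgU hu10 D
      mem := hu1
      eqn := hue }
  obtain ⟨u', hu'c, hu'm, hu'e⟩ := hrep n p μ a α β D u₁ V 0 1 hop hsol
  classical
  let v : E n → ℝ := fun x => if x ∈ D then u' x else g x
  have hvD : ∀ x ∈ D, v x = u' x := fun x hx => if_pos hx
  have hvD' : ∀ x, x ∉ D → v x = g x := fun x hx => if_neg hx
  refine ⟨v, hκ, hsub, fun x => ?_, hu'c.congr hvD, g, V, hgT, hg01, ⟨δ / 2, by positivity, hg1⟩,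
    ?_, hue⟩
  · by_cases hx : x ∈ D
    · rw [hvD x hx]
      exact hu'm x
    · rw [hvD' x hx]
      exact hg01 x
  · refine H0.congr hu10 ?_ (ae_eq_refl _)
    have h2 := (ae_restrict_iff' hDo.measurableSet).1 hu'e
    have h3 := (ae_restrict_iff' hDo.measurableSet.compl).1
      (H0.ae_eq_zero hp hDo.measurableSet hu10).1
    filter_upwards [h2, h3] with x hx2 hx3
    by_cases hx : x ∈ D
    · rw [hvD x hx, hx2 hx]
    · rw [hvD' x hx, hx3 hx, sub_self]

end Pool.Agent.Lib.MP_abd978_an.H49
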