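import Pool.Agent.Lib.MP_abd978_an.Interfaces

/-!
# Project ABD: continuous representatives (module REP)
-/

set_option autoImplicit false

open MeasureTheory Metric Set Filter Topology ContDiff
open scoped Gradient RealInnerProductSpace

namespace Pool.Agent.Lib.MP_abd978_an.H49

open Pool.Agent.Lib.MP_abd978_an

variable {n : ℕ}

theorem IsSob.congr {μ : Measure (E n)} {p : ℝ} {D : Set (E n)} {u u' : E n → ℝ}
    {v : E n → E n} (h : IsSob μ p D u v) (hu : u =ᵐ[μ.restrict D] u') :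
    IsSob μ p D u' v := by
  obtain ⟨h1, h2, ψ, h3, h4, h5⟩ := h
  refine ⟨h1.ae_eq hu, h2, ψ, h3, ?_, h5⟩
  refine h4.congr fun i => eLpNorm_congr_ae ?_
  filter_upwards [hu] with x hx
  rw [hx]

/-- two inequalities which hold almost everywhere on balls with the same centre are compatible -/
theorem le_of_ae_ball {μ : Measure (E n)} (hpos : ∀ (z : E n) (r : ℝ), 0 < r →
    0 < μ.real (ball z r)) {z z' : E n} {r r' : ℝ} {u : E n → ℝ} {s t : ℝ} (hr' : 0 < r')
    (hz : z' ∈ ball z r) (h1 : ∀ᵐ x ∂(μ.restrict (ball z r)), s ≤ u x)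
    (h2 : ∀ᵐ x ∂(μ.restrict (ball z' r')), u x ≤ t) : s ≤ t := by
  have h3 : 0 < r - dist z' z := by
    rw [mem_ball] at hz
    linarith
  set ρ := min r' (r - dist z' z) with hρ
  have hρ0 : 0 < ρ := lt_min hr' h3
  have h4 : ball z' ρ ⊆ ball z r := by
    intro x hx
    rw [mem_ball] at hx ⊢
    have h5 := dist_triangle x z' z
    have h6 : ρ ≤ r - dist z' z := min_le_right _ _
    linarith
  have h5 : ball z' ρ ⊆ ball z' r' := ball_subset_ball (min_le_left _ _)
  have h6 : ∀ᵐ x ∂(μ.restrict (ball z' ρ)), s ≤ t := by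
    filter_upwards [ae_restrict_of_ae_restrict_of_subset h4 h1,
      ae_restrict_of_ae_restrict_of_subset h5 h2] with x hx1 hx2
    exact hx1.trans hx2
  by_contra hcon
  have h7 : ∀ᵐ x ∂(μ.restrict (ball z' ρ)), False := h6.mono fun x hx => hcon hx
  rw [ae_iff] at h7
  have h8 : (μ.restrict (ball z' ρ)) univ = 0 := by simpa using h7
  rw [Measure.restrict_apply_univ] at h8
  have h9 := hpos z' ρ hρ0
  rw [measureReal_def, h8] at h9
  simp at h9

/-- the essential upper limit -/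
noncomputable def rep (μ : Measure (E n)) (u : E n → ℝ) (z : E n) : ℝ :=
  sInf {b : ℝ | ∃ r > 0, ∀ᵐ x ∂(μ.restrict (ball z r)), u x ≤ b}

theorem rep_mem {μ : Measure (E n)} (hpos : ∀ (z : E n) (r : ℝ), 0 < r →
    0 < μ.real (ball z r)) {z z' : E n} {r : ℝ} {u : E n → ℝ} {s t : ℝ}
    (hz : z' ∈ ball z r) (h : ∀ᵐ x ∂(μ.restrict (ball z r)), u x ∈ Icc s t) :
    rep μ u z' ∈ Icc s t := by
  have h3 : 0 < r - dist z' z := by
    rw [mem_ball] at hz
    linarith
  have h4 : ball z' (r - dist z' z) ⊆ ball z r := by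
    intro x hx
    rw [mem_ball] at hx ⊢
    have h5 := dist_triangle x z' z
    linarith
  have hlow : ∀ b ∈ {b : ℝ | ∃ r > 0, ∀ᵐ x ∂(μ.restrict (ball z' r)), u x ≤ b}, s ≤ b := by
    rintro b ⟨r', hr', hb⟩
    exact le_of_ae_ball hpos hr' hz (h.mono fun x hx => hx.1) hb
  have ht : t ∈ {b : ℝ | ∃ r > 0, ∀ᵐ x ∂(μ.restrict (ball z' r)), u x ≤ b} :=
    ⟨r - dist z' z, h3, (ae_restrict_of_ae_restrict_of_subset h4 h).mono fun x hx => hx.2⟩
  exact ⟨le_csInf ⟨t, ht⟩ hlow, csInf_le ⟨s, hlow⟩ ht⟩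

/-- iteration of the oscillation estimate -/
theorem osc_iter {p : ℝ} {μ : Measure (E n)} {a : E n → E n → E n} {c : ℝ}
    (hc1 : c < 1)
    (hosc : ∀ (D : Set (E n)) (u : E n → ℝ) (v : E n → E n) (m M : ℝ) (z : E n) (r : ℝ),
      BSol μ p a D u v m M → 0 < r → closedBall z (4 * r) ⊆ D →
        ∃ m' M' : ℝ, m ≤ m' ∧ m' ≤ M' ∧ M' ≤ M ∧ M' - m' ≤ (1 - c) * (M - m) ∧
          ∀ᵐ x ∂(μ.restrict (ball z r)), u x ∈ Icc m' M')
    {D : Set (E n)} {u : E n → ℝ} {v : E n → E n} {m M : ℝ} {z : E n} {r : ℝ}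
    (hs : BSol μ p a D u v m M) (hr : 0 < r) (hD : closedBall z (4 * r) ⊆ D) (k : ℕ) :
    ∃ m' M' : ℝ, m' ≤ M' ∧ M' - m' ≤ (1 - c) ^ (k + 1) * (M - m) ∧
      ∀ᵐ x ∂(μ.restrict (ball z (r / 8 ^ k))), u x ∈ Icc m' M' := by
  induction k with
  | zero =>
    obtain ⟨m', M', -, h2, -, h4, h5⟩ := hosc D u v m M z r hs hr hD
    exact ⟨m', M', h2, by simpa using h4, by simpa using h5⟩
  | succ k ih =>
    obtain ⟨m', M', h1, h2, h3⟩ := ih
    have hrk : 0 < r / 8 ^ k := by positivity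
    have hsub : ball z (r / 8 ^ k) ⊆ D := by
      refine Subset.trans ?_ hD
      refine ball_subset_closedBall.trans (closedBall_subset_closedBall ?_)
      have h4 : r / 8 ^ k ≤ r := div_le_self hr.le (one_le_pow₀ (by norm_num))
      linarith
    let u₁ : E n → ℝ := fun x => max m' (min M' (u x))
    have hu : u =ᵐ[μ.restrict (ball z (r / 8 ^ k))] u₁ := by
      filter_upwards [h3] with x hx
      show u x = max m' (min M' (u x))
      rw [min_eq_right hx.2, max_eq_right hx.1]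
    have hs1 : BSol μ p a (ball z (r / 8 ^ k)) u₁ v m' M' :=
      { isOpen := isOpen_ball
        sob := IsSob.congr (hs.sob.mono hsub) hu
        mem := fun x => ⟨le_max_left _ _, max_le h1 (min_le_left _ _)⟩
        eqn := hs.eqn.mono hsub }
    have hr8 : r / 8 ^ (k + 1) = r / 8 ^ k / 8 := by
      rw [pow_succ]
      field_simp
    have hsub2 : closedBall z (4 * (r / 8 ^ (k + 1))) ⊆ ball z (r / 8 ^ k) := by
      refine closedBall_subset_ball ?_
      rw [hr8]
      linarith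
    obtain ⟨m'', M'', -, h5, -, h6, h7⟩ := hosc _ u₁ v m' M' z (r / 8 ^ (k + 1)) hs1
      (by positivity) hsub2
    refine ⟨m'', M'', h5, ?_, ?_⟩
    · refine h6.trans ?_
      rw [pow_succ (1 - c) (k + 1), mul_comm _ (1 - c), mul_assoc]
      exact mul_le_mul_of_nonneg_left h2 (by linarith)
    · have h8 : ball z (r / 8 ^ (k + 1)) ⊆ ball z (r / 8 ^ k) := by
        refine ball_subset_ball ?_
        rw [hr8]
        linarith
      filter_upwards [h7, ae_restrict_of_ae_restrict_of_subset h8 hu] with x hx1 hx2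
      rw [hx2]
      exact hx1

/-- REP -/
theorem rep_statement (ho : OscStatement) : RepStatement := by
  intro n p μ a α β D u v m M hop hs
  obtain ⟨c, hc0, hc1, hosc⟩ := ho n p μ a α β hop
  have hpos := hop.pos
  -- small oscillation near every point of `D`
  have key : ∀ z ∈ D, ∀ ε > 0, ∃ r > 0, ∃ s t : ℝ, t - s ≤ ε ∧
      ∀ᵐ x ∂(μ.restrict (ball z r)), u x ∈ Icc s t := by
    intro z hz ε hε
    obtain ⟨r, hr, hrD⟩ := Metric.isOpen_iff.1 hs.isOpen z hz
    have hr8 : closedBall z (4 * (r / 8)) ⊆ D :=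
      (closedBall_subset_ball (by linarith)).trans hrD
    have hmM : 0 ≤ M - m := by
      have := hs.mem z
      linarith [this.1, this.2]
    have h1 : Tendsto (fun k : ℕ => (1 - c) ^ (k + 1) * (M - m)) atTop (𝓝 0) := by
      have h2 := (tendsto_pow_atTop_nhds_zero_of_lt_one (r := 1 - c) (by linarith)
        (by linarith)).comp (tendsto_add_atTop_nat 1)
      have h3 := h2.mul_const (M - m)
      rw [zero_mul] at h3
      exact h3
    obtain ⟨k, hk⟩ := (h1.eventually (gt_mem_nhds hε)).exists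
    obtain ⟨m', M', -, h5, h6⟩ := osc_iter hc1 hosc hs (r := r / 8) (by positivity) hr8 k
    exact ⟨r / 8 / 8 ^ k, by positivity, m', M', h5.trans hk.le, h6⟩
  refine ⟨rep μ u, ?_, fun x => ?_, ?_⟩
  · intro z hz
    refine ContinuousAt.continuousWithinAt ?_
    rw [Metric.continuousAt_iff]
    intro ε hε
    obtain ⟨r, hr, s, t, h1, h2⟩ := key z hz (ε / 2) (by positivity)
    refine ⟨r, hr, fun {x} hx => ?_⟩
    have h3 := rep_mem hpos (mem_ball.2 hx) h2
    have h4 := rep_mem hpos (mem_ball_self hr) h2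
    rw [Real.dist_eq, abs_lt]
    constructor
    · linarith [h3.1, h4.2]
    · linarith [h3.2, h4.1]
  · exact rep_mem hpos (mem_ball_self one_pos) (Eventually.of_forall fun y => hs.mem y)
  · rw [ae_restrict_iff' hs.isOpen.measurableSet, ae_iff]
    have h1 : {x | ¬(x ∈ D → rep μ u x = u x)} ⊆
        ⋃ k : ℕ, {x | x ∈ D ∧ 1 / ((k : ℝ) + 1) < |rep μ u x - u x|} := by
      intro x hx
      simp only [mem_ofPred_eq, Classical.not_imp] at hx
      have h2 : 0 < |rep μ u x - u x| := abs_pos.2 (sub_ne_zero.2 hx.2)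
      obtain ⟨k, hk⟩ := exists_nat_one_div_lt h2
      exact mem_iUnion.2 ⟨k, hx.1, hk⟩
    refine measure_mono_null h1 (measure_iUnion_null fun k => ?_)
    refine measure_null_of_locally_null _ fun z hz => ?_
    obtain ⟨r, hr, s, t, h2, h3⟩ := key z hz.1 (1 / ((k : ℝ) + 1)) (by positivity)
    refine ⟨ball z r ∩ {x | x ∈ D ∧ 1 / ((k : ℝ) + 1) < |rep μ u x - u x|},
      inter_mem (mem_nhdsWithin_of_mem_nhds (ball_mem_nhds z hr)) self_mem_nhdsWithin, ?_⟩
    have h4 : ∀ᵐ x ∂μ, x ∈ ball z r → u x ∈ Icc s t :=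
      (ae_restrict_iff' measurableSet_ball).1 h3
    rw [ae_iff] at h4
    refine measure_mono_null ?_ h4
    rintro x ⟨hx1, -, hx2⟩
    simp only [mem_ofPred_eq, Classical.not_imp]
    refine ⟨hx1, fun hx3 => ?_⟩
    have h5 := rep_mem hpos hx1 h3
    have h6 : |rep μ u x - u x| ≤ t - s := by
      rw [abs_le]
      constructor
      · linarith [h5.1, hx3.2]
      · linarith [h5.2, hx3.1]
    linarith

end Pool.Agent.Lib.MP_abd978_an.H49
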